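import Mathlib

set_option autoImplicit false

namespace Pool.Agent.H.MP_bc03d6_nt

open Set Filter Topology MeasureTheory Function Measure Real
open scoped ENNReal Classical

variable {X : Type} [MeasurableSpace X] (μ : Measure X) [IsProbabilityMeasure μ]

theorem upd (b : ℕ) : MeasurePreserving (fun z : (ℕ → X) × X => update z.1 b z.2)
    ((infinitePi fun _ => μ).prod μ) (infinitePi fun _ => μ) := by
  refine ⟨measurable_update', eq_infinitePi _ fun s t ht => ?_⟩
  rw [map_apply measurable_update' (.pi s.countable_toSet fun _ _ => ht _)]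
  by_cases h : b ∈ s
  · rw [← Finset.prod_erase_mul _ _ h, ← infinitePi_pi _ fun _ _ => ht _, ← prod_prod]
    congr 1
    ext z
    simp only [mem_preimage, Set.mem_pi, Finset.mem_coe, Set.mem_prod, Finset.mem_erase]
    refine ⟨fun k => ⟨fun i hi => by simpa [hi.1] using k i hi.2, by simpa using k b h⟩, fun k i hi => ?_⟩
    rcases eq_or_ne i b with rfl | e
    · simpa using k.2
    simpa [e] using k.1 i ⟨e, hi⟩
  rw [← infinitePi_pi _ fun _ _ => ht _, ← mul_one (infinitePi _ _), ← measure_univ (μ := μ), ← prod_prod]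
  congr 1
  ext z
  simp only [mem_preimage, Set.mem_pi, Finset.mem_coe, Set.mem_prod, mem_univ, and_true]
  exact forall₂_congr fun i hi => by rw [update_of_ne (ne_of_mem_of_not_mem hi h)]

/-- uncovered mass -/
noncomputable def U (A : ℕ → Set (X × X)) (j : ℕ) (ω : ℕ → X) : ℝ := μ.real {x | ∀ i < j, (ω i, x) ∉ A i}

theorem mE {A : ℕ → Set (X × X)} (hA : ∀ i, MeasurableSet (A i)) (j : ℕ) :
    MeasurableSet {z : (ℕ → X) × X | ∀ i < j, (z.1 i, z.2) ∉ A i} := by
  simp only [ofPred_forall]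
  exact .iInter fun i => .iInter fun _ => ((hA i).preimage (by fun_prop)).compl

theorem mU {A : ℕ → Set (X × X)} (hA : ∀ i, MeasurableSet (A i)) (j : ℕ) : Measurable (U μ A j) :=
  (measurable_measure_prodMk_left (mE hA j)).ennreal_toReal

omit [IsProbabilityMeasure μ] in
theorem Ucongr {A B : ℕ → Set (X × X)} {j : ℕ} {ω η : ℕ → X}
    (h : ∀ i < j, ∀ x, (ω i, x) ∈ A i ↔ (η i, x) ∈ B i) : U μ A j ω = U μ B j η :=
  congrArg μ.real (Set.ext fun x => forall₂_congr fun i hi => (h i hi x).not)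

theorem Uanti (A : ℕ → Set (X × X)) (ω : ℕ → X) : Antitone (U μ A · ω) :=
  fun _ _ h => measureReal_mono fun _ hy i hi => hy i (hi.trans_le h)

theorem inner {E : Set X} (hE : MeasurableSet E) {B : Set (X × X)} (hB : MeasurableSet B) {v C δ : ℝ}
    (v0 : 0 < v) (C0 : 0 < C) (h1 : ∀ y, μ.real {x | (y, x) ∈ B} ≤ C * v)
    (h2 : ∀ x, v ≤ μ.real {y | (y, x) ∈ B}) (hδ : δ ≤ μ.real E) :
    ∫⁻ y, .ofReal (exp (-μ.real (E ∩ {x | (y, x) ∈ B}) / (C * v))) ∂μ ≤ .ofReal (exp (-δ / (2 * C))) := by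
  have m : MeasurableSet (Prod.snd ⁻¹' E ∩ B) := (measurable_snd hE).inter hB
  have c : 0 < C * v := by positivity
  have d : ∀ y, μ.real (E ∩ {x | (y, x) ∈ B}) / (C * v) ≤ 1 := fun y =>
    (div_le_one c).2 ((measureReal_mono inter_subset_right).trans (h1 y))
  have i : Integrable (fun y => μ.real (E ∩ {x | (y, x) ∈ B})) μ := .of_bound
    (measurable_measure_prodMk_left m).ennreal_toReal.aestronglyMeasurable 1
      (ae_of_all _ fun y => by rw [norm_of_nonneg measureReal_nonneg]; exact measureReal_le_one)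
  have k : v * μ.real E ≤ ∫ y, μ.real (E ∩ {x | (y, x) ∈ B}) ∂μ := by
    refine le_trans ?_ (integral_toReal (measurable_measure_prodMk_left m).aemeasurable
      (ae_of_all _ fun y => measure_lt_top _ _)).ge
    rw [← Measure.prod_apply m, prod_apply_symm m, ← ENNReal.toReal_ofReal v0.le, measureReal_def, ← ENNReal.toReal_mul,
      ← lintegral_indicator_const hE]
    refine ENNReal.toReal_mono (by rw [← prod_apply_symm m]; simp) (lintegral_mono fun x => ?_)
    refine indicator_apply_le' (fun hx => ?_) fun _ => zero_le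
    exact (ENNReal.ofReal_le_of_le_toReal (h2 x)).trans (measure_mono fun y hy => ⟨hx, hy⟩)
  refine (lintegral_mono (g := fun y => .ofReal (1 - μ.real (E ∩ {x | (y, x) ∈ B}) / (C * v) / 2))
    fun y => ENNReal.ofReal_le_ofReal ?_).trans ?_
  · have := d y
    have e : 0 ≤ μ.real (E ∩ {x | (y, x) ∈ B}) / (C * v) := by positivity
    rw [neg_div]
    generalize μ.real (E ∩ {x | (y, x) ∈ B}) / (C * v) = t at *
    rw [exp_neg, inv_le_iff_one_le_mul₀ (exp_pos _)]
    nlinarith [mul_le_mul_of_nonneg_left (add_one_le_exp t) (show 0 ≤ 1 - t / 2 by linarith)]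
  rw [← ofReal_integral_eq_lintegral_ofReal (by exact (integrable_const _).sub ((i.div_const _).div_const _))
    (ae_of_all _ fun y => by simp only [Pi.zero_apply]; linarith [d y])]
  refine ENNReal.ofReal_le_ofReal (le_trans ?_ (add_one_le_exp _))
  rw [integral_sub (integrable_const _) ((i.div_const _).div_const _), integral_div, integral_div]
  have : δ / (2 * C) ≤ (∫ y, μ.real (E ∩ {x | (y, x) ∈ B}) ∂μ) / (C * v) / 2 := by
    rw [div_div, div_le_div_iff₀ (by positivity) (by positivity)]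
    nlinarith [mul_le_mul_of_nonneg_left hδ c.le, mul_le_mul_of_nonneg_left k C0.le]
  simp only [integral_const, probReal_univ, smul_eq_mul, neg_div]
  linarith

theorem prob {A : ℕ → Set (X × X)} (hA : ∀ i, MeasurableSet (A i)) {v C δ : ℝ} (v0 : 0 < v) (C0 : 0 < C)
    (a m : ℕ) (h : ∀ j < m, (∀ y, μ.real {x | (y, x) ∈ A (a + j)} ≤ C * v) ∧
      ∀ x, v ≤ μ.real {y | (y, x) ∈ A (a + j)}) :
    infinitePi (fun _ => μ) {ω | δ ≤ U μ A (a + m) ω ∧ U μ A a ω - U μ A (a + m) ω < m * v * δ / 4} ≤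
      .ofReal (exp (-δ / (4 * C) * m)) := by
  let Z : ℕ → (ℕ → X) → ℝ≥0∞ := fun m => {ω | δ ≤ U μ A (a + m) ω}.indicator
    fun ω => .ofReal (exp ((U μ A (a + m) ω - U μ A a ω) / (C * v)))
  have mZ : ∀ m, Measurable (Z m) := fun m => .indicator (by have := mU μ hA; fun_prop)
    (measurableSet_le measurable_const (mU μ hA _))
  have k : ∀ j ≤ m, ∫⁻ ω, Z j ω ∂infinitePi (fun _ => μ) ≤ .ofReal (exp (-δ / (2 * C) * j)) := fun j hj => by
    induction j with
    | zero => exact (lintegral_mono (g := fun _ => 1) fun ω => indicator_apply_le' (by simp) (by simp)).trans (by simp)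
    | succ j i =>
      rw [← (upd μ (a + j)).lintegral_comp (mZ _), lintegral_prod _ (by exact ((mZ _).comp measurable_update').aemeasurable),
        Nat.cast_succ, mul_add_one, exp_add, ENNReal.ofReal_mul (exp_pos _).le]
      refine le_trans ?_ (mul_le_mul_left (i (by omega)) _)
      rw [← lintegral_mul_const _ (mZ _)]
      refine lintegral_mono fun ω => ?_
      have m := measurable_prodMk_left (x := ω) (mE hA (a + j))
      have e : ∀ y, U μ A (a + (j + 1)) (update ω (a + j) y) = U μ A (a + j) ω -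
          μ.real ({x | ∀ i < a + j, (ω i, x) ∉ A i} ∩ {x | (y, x) ∈ A (a + j)}) := fun y => by
        refine eq_sub_iff_add_eq'.2 (Eq.trans ?_
          (measureReal_inter_add_sdiff (measurable_prodMk_left (x := y) (hA (a + j)))))
        refine congrArg₂ _ rfl (congrArg μ.real (Set.ext fun x => ?_))
        simp only [mem_ofPred_eq, ← add_assoc, Nat.forall_lt_succ_right, update_self, Set.mem_sdiff, mem_preimage]
        exact and_congr_left' (forall₂_congr fun i hi => by rw [update_of_ne hi.ne])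
      have e' : ∀ y, U μ A a (update ω (a + j) y) = U μ A a ω := fun y =>
        Ucongr μ fun i hi x => by rw [update_of_ne (by omega)]
      by_cases c : δ ≤ U μ A (a + j) ω
      · refine le_trans ?_ (mul_le_mul_right (inner μ m (hA (a + j)) v0 C0 (h j hj).1 (h j hj).2 c) _)
        rw [← lintegral_const_mul' _ _ (by simp [Z, c])]
        refine lintegral_mono fun y => indicator_apply_le' (fun _ => le_of_eq ?_) fun _ => zero_le
        simp only [Z, indicator_of_mem (show ω ∈ {ω | δ ≤ U μ A (a + j) ω} from c)]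
        rw [e, e', ← ENNReal.ofReal_mul (exp_pos _).le, ← exp_add]
        congr 2
        simp only [preimage, mem_ofPred_eq]
        ring
      refine (lintegral_mono (g := fun _ => 0) fun y => (indicator_of_notMem (fun d => c ?_) _).le).trans (by simp)
      rw [mem_ofPred_eq, e] at d
      exact d.trans (sub_le_self _ measureReal_nonneg)
  have := (mul_meas_ge_le_lintegral₀ (mZ m).aemeasurable (.ofReal (exp (-δ / (4 * C) * m)))).trans (k m le_rfl)
  rw [show -δ / (2 * C) * m = -δ / (4 * C) * m + -δ / (4 * C) * m by field_simp; ring, exp_add,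
    ENNReal.ofReal_mul (exp_pos _).le, ENNReal.mul_le_mul_iff_right (by simp [exp_pos]) (by simp)] at this
  refine le_trans (measure_mono fun ω ⟨h1, h2⟩ => ?_) this
  simp only [Z, mem_ofPred_eq, indicator_of_mem (show ω ∈ {ω | δ ≤ U μ A (a + m) ω} from h1)]
  refine ENNReal.ofReal_le_ofReal (exp_le_exp.2 ((le_div_iff₀ (by positivity)).2 ?_))
  rw [show -δ / (4 * C) * m * (C * v) = -(m * v * δ / 4) by field_simp]
  linarith

open unitInterval

theorem one (y : I) {r : ℝ} (r0 : 0 ≤ r) (r1 : r ≤ 1) :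
    r ≤ volume.real {t : I | |(t : ℝ) - y| < r} ∧ volume.real {t : I | |(t : ℝ) - y| < r} ≤ 2 * r := by
  have : Subtype.val '' {t : I | |(t : ℝ) - y| < r} = Ioo (y - r) (y + r) ∩ I := by
    ext t
    simp only [mem_image, mem_ofPred_eq, Subtype.exists, exists_and_right, exists_eq_right, mem_inter_iff,
      mem_Ioo, abs_sub_lt_iff, exists_prop]
    exact ⟨fun h => ⟨⟨by linarith, by linarith⟩, h.1.1⟩, fun h => ⟨⟨h.2, by linarith [h.1.2]⟩, by linarith [h.1.1]⟩⟩
  rw [measureReal_def, unitInterval.volume_apply, this, ← measureReal_def]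
  refine ⟨le_trans ?_ (measureReal_mono (inter_subset_inter_right _ Ioo_subset_Icc_self)
    (measure_ne_top_of_subset inter_subset_left (by simp))),
      (measureReal_mono inter_subset_left (by simp)).trans (by simp; constructor <;> linarith)⟩
  rw [Ioo_inter_Ioo, volume_real_Ioo]
  refine le_max_of_le_left ?_
  have := y.2.1
  have := y.2.2
  rw [min_def, max_def]
  split_ifs <;> linarith

variable {n : ℕ}

/-- boxes -/
def A (τ : ℕ → Fin n → ℕ) (j : ℕ) : Set ((Fin n → I) × (Fin n → I)) :=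
  {z | ∀ i, |(z.2 i : ℝ) - z.1 i| < τ (Nat.log 2 j) i / 4 ^ Nat.log 2 j}

theorem mA (τ : ℕ → Fin n → ℕ) (j : ℕ) : MeasurableSet (A τ j) := by
  simp only [A, ofPred_forall]
  exact .iInter fun i => measurableSet_lt (by fun_prop) measurable_const

theorem box (y : Fin n → I) {r : Fin n → ℝ} (r0 : ∀ i, 0 ≤ r i) (r1 : ∀ i, r i ≤ 1) :
    ∏ i, r i ≤ volume.real {x : Fin n → I | ∀ i, |(x i : ℝ) - y i| < r i} ∧
      volume.real {x : Fin n → I | ∀ i, |(x i : ℝ) - y i| < r i} ≤ 2 ^ n * ∏ i, r i := by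
  rw [show {x : Fin n → I | ∀ i, |(x i : ℝ) - y i| < r i} = univ.pi fun i => {t : I | |(t : ℝ) - y i| < r i} by
    ext; simp, measureReal_def, volume_pi_pi, ENNReal.toReal_prod]
  refine ⟨Finset.prod_le_prod (fun i _ => r0 i) fun i _ => (one _ (r0 i) (r1 i)).1,
    (Finset.prod_le_prod (fun i _ => ENNReal.toReal_nonneg) fun i _ => (one _ (r0 i) (r1 i)).2).trans_eq ?_⟩
  simp [Finset.prod_mul_distrib]

theorem good {δ : ℝ} (δ0 : 0 < δ) : ∀ᵐ ω ∂infinitePi fun _ => (volume : Measure (Fin n → I)), ∀ᶠ k in atTop,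
    ∀ τ : ℕ → Fin n → ℕ, (∀ l i, τ l i ≤ 4 ^ l) → δ ≤ U volume (A τ) (2 ^ (k + 1)) ω →
      2 ^ k * (∏ i, (τ k i / 4 ^ k : ℝ)) * δ / 4 ≤ U volume (A τ) (2 ^ k) ω - U volume (A τ) (2 ^ (k + 1)) ω := by
  let x : ∀ k, (Fin (k + 1) → Fin n → Fin (4 ^ k + 1)) → ℕ → Fin n → ℕ := fun k h l i =>
    if c : l < k + 1 then h ⟨l, c⟩ i else 0
  let B : ℕ → (ℕ → Fin n → ℕ) → Set (ℕ → Fin n → I) := fun k τ => {ω | δ ≤ U volume (A τ) (2 ^ k + 2 ^ k) ω ∧
    U volume (A τ) (2 ^ k) ω - U volume (A τ) (2 ^ k + 2 ^ k) ω < (2 ^ k : ℕ) * (∏ i, (τ k i / 4 ^ k : ℝ)) * δ / 4}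
  have b : ∀ k h, infinitePi (fun _ => volume) (B k (x k h)) ≤ .ofReal (exp (-δ / (4 * 2 ^ n) * (2 ^ k : ℕ))) :=
    fun k h => by
    have r0 : ∀ i, 0 ≤ (x k h k i / 4 ^ k : ℝ) := fun i => by positivity
    have r1 : ∀ i, (x k h k i / 4 ^ k : ℝ) ≤ 1 := fun i => (div_le_one (by positivity)).2 (by
      simp only [x, dif_pos k.lt_succ_self]; exact_mod_cast Nat.le_of_lt_succ (Fin.is_lt _))
    rcases (Finset.prod_nonneg (s := .univ) fun i _ => r0 i).eq_or_lt with e | e
    · refine (measure_mono fun ω h => h.2.not_ge ?_).trans (measure_empty.trans_le zero_le)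
      rw [← e]
      simpa using Uanti _ _ ω (Nat.le_add_right _ _)
    refine prob volume (mA _) e (by positivity) _ _ fun j hj => ?_
    simp only [A, Nat.log_eq_of_pow_le_of_lt_pow (b := 2) (m := k) (n := 2 ^ k + j) (by omega) (by omega),
      mem_ofPred_eq]
    exact ⟨fun y => (box y r0 r1).2, fun y => by simpa only [abs_sub_comm (y _ : ℝ)] using (box y r0 r1).1⟩
  have s : Summable fun k : ℕ => exp (n * (k + 1) * (2 * k + 1)) * exp (-δ / (4 * 2 ^ n) * (2 ^ k : ℕ)) := by
    refine summable_exp_neg_nat.of_norm_bounded_eventually_nat ?_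
    filter_upwards [(tendsto_pow_const_div_const_pow_of_one_lt 2 one_lt_two).eventually
      (gt_mem_nhds (show 0 < δ / (4 * 2 ^ n) / (6 * n + 1) by positivity)), eventually_ge_atTop 1] with k h1 h2
    rw [norm_of_nonneg (by positivity), ← exp_add, exp_le_exp, neg_div]
    rw [div_lt_div_iff₀ (by positivity) (by positivity)] at h1
    have : (1 : ℝ) ≤ k := by exact_mod_cast h2
    push_cast
    nlinarith [mul_le_mul_of_nonneg_left (show (k + 1) * (2 * k + 1) ≤ 6 * (k : ℝ) ^ 2 by nlinarith)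
      (n.cast_nonneg (α := ℝ))]
  refine (ae_eventually_notMem (s := fun k => ⋃ h, B k (x k h)) (ne_top_of_le_ne_top (by
    rw [← ENNReal.ofReal_tsum_of_nonneg (fun _ => by positivity) s]; simp) (ENNReal.tsum_le_tsum
      (g := fun k : ℕ => .ofReal (exp (n * (k + 1) * (2 * k + 1)) * exp (-δ / (4 * 2 ^ n) * (2 ^ k : ℕ))))
        fun k => ?_))).mono fun ω hω => ?_
  swap
  · refine hω.mono fun k h' τ hτ h1 => not_lt.1 fun h2 => ?_
    have h : ∀ (l : Fin (k + 1)) i, τ l i < 4 ^ k + 1 := fun l i => Nat.lt_succ_of_le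
      ((hτ l i).trans (Nat.pow_le_pow_right (by simp) (Nat.le_of_lt_succ l.2)))
    refine h' (mem_iUnion.2 ⟨fun l i => ⟨τ l i, h l i⟩, ?_⟩)
    have : ∀ j ≤ 2 ^ (k + 1), U volume (A (x k fun l i => ⟨τ l i, h l i⟩)) j ω = U volume (A τ) j ω :=
      fun j hj => Ucongr _ fun i hi y => by
        simp only [A, x, dif_pos (Nat.log_lt_of_lt_pow' k.succ_ne_zero (hi.trans_le hj))]
    simp only [B, mem_ofPred_eq, ← two_mul, ← pow_succ']
    rw [this _ le_rfl, this _ (Nat.pow_le_pow_right two_pos k.le_succ)]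
    simp only [x, dif_pos k.lt_succ_self]
    exact ⟨h1, by exact_mod_cast h2⟩
  refine (measure_iUnion_fintype_le _ _).trans ((Finset.sum_le_card_nsmul _ _ _ fun h _ => b k h).trans ?_)
  rw [nsmul_eq_mul, ENNReal.ofReal_mul (exp_pos _).le, ← ENNReal.ofReal_natCast]
  refine mul_le_mul_left (ENNReal.ofReal_le_ofReal ?_) _
  simp only [Finset.card_univ, Fintype.card_fun, Fintype.card_fin, ← pow_mul]
  rw [← Nat.cast_succ, ← Nat.cast_mul, exp_nat_mul]
  push_cast
  gcongr
  rw [show (2 * k + 1 : ℝ) = (2 * k + 1 : ℕ) by simp, ← exp_one_pow]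
  refine le_trans (b := 2 ^ (2 * k + 1)) ?_ (pow_le_pow_left₀ two_pos.le (by linarith [add_one_le_exp 1]) _)
  rw [pow_succ, pow_mul]
  linarith [one_le_pow₀ (n := k) (show (1 : ℝ) ≤ 4 by norm_num), show (2 ^ 2 : ℝ) ^ k = 4 ^ k by norm_num]

theorem lip {ι : Type} (s : Finset ι) {a b : ι → ℝ} {e : ℝ} (h : ∀ i, 0 ≤ a i ∧ a i ≤ b i ∧ b i ≤ 1 ∧ b i ≤ a i + e) :
    ∏ i ∈ s, b i ≤ ∏ i ∈ s, a i + s.card * e := by
  induction s using Finset.induction_on with
  | empty => simp
  | insert i s hi k =>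
    rw [Finset.prod_insert hi, Finset.prod_insert hi, Finset.card_insert_of_notMem hi]
    obtain ⟨h1, h2, h3, h4⟩ := h i
    have := Finset.prod_le_one (s := s) (fun i _ => (h i).1) fun i _ => (h i).2.1.trans (h i).2.2.1
    have := Finset.prod_nonneg (s := s) fun i _ => (h i).1
    have : 0 ≤ s.card * e := mul_nonneg s.card.cast_nonneg (by linarith)
    push_cast
    nlinarith [mul_le_mul_of_nonneg_left k (h1.trans h2)]

theorem main (hn : 0 < n) : ∀ᵐ ω ∂infinitePi fun _ : ℕ => (volume : Measure (Fin n → I)), ∀ ψ : Fin n → ℕ → ℝ,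
    (∀ i, Antitone (ψ i)) → (∀ i j, 0 < ψ i j) → ¬Summable (fun j => ∏ i, ψ i j) →
      volume {x : Fin n → I | ∃ᶠ j in atTop, ∀ i, |(x i : ℝ) - ω j i| < ψ i j} = 1 := by
  filter_upwards [ae_all_iff.2 fun m : ℕ => good (n := n) (Nat.one_div_pos_of_nat (n := m))] with ω hω ψ a p s
  refine (measure_congr (ae_eq_univ.2 ?_)).trans measure_univ
  simp only [compl_ofPred, not_frequently, eventually_atTop, ofPred_exists]
  refine measure_iUnion_null fun K => by_contra fun h => s ?_
  obtain ⟨m, hm⟩ := exists_nat_one_div_lt (ENNReal.toReal_pos h (measure_ne_top _ _))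
  let t : ℕ → Fin n → ℝ := fun j i => min (ψ i j) 1
  have t0 : ∀ j i, 0 ≤ t j i := fun j i => le_min (p i j).le zero_le_one
  let τ : ℕ → Fin n → ℕ := fun l i => if l < K then 0 else ⌊t (2 ^ (l + 1)) i * 4 ^ l⌋₊
  have f : ∀ l i, (τ l i / 4 ^ l : ℝ) ≤ t (2 ^ (l + 1)) i := fun l i => by
    rw [div_le_iff₀ (by positivity)]
    simp only [τ]
    split_ifs
    · simpa using t0 _ _
    exact Nat.floor_le (mul_nonneg (t0 _ _) (by positivity))
  have u : ∀ j, 1 / (m + 1 : ℝ) ≤ U volume (A τ) j ω := fun j => hm.le.trans (measureReal_mono fun y hy l _ c => by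
    by_cases d : Nat.log 2 l < K
    · exact (abs_nonneg _).not_gt (by simpa [τ, d] using c ⟨0, hn⟩)
    exact hy l ((not_lt.1 d).trans (Nat.log_le_self _ _)) fun i => (c i).trans_le ((f _ i).trans
      ((min_le_left _ _).trans (a i (Nat.lt_pow_succ_log_self one_lt_two l).le))))
  have d0 : ∀ k, 0 ≤ U volume (A τ) (2 ^ k) ω - U volume (A τ) (2 ^ (k + 1)) ω := fun k =>
    sub_nonneg.2 (Uanti _ _ ω (Nat.pow_le_pow_right two_pos k.le_succ))
  have s1 := summable_of_sum_range_le (c := 1) d0 fun k => by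
    rw [Finset.sum_range_sub' fun k => U volume (A τ) (2 ^ k) ω]
    exact (sub_le_self _ measureReal_nonneg).trans measureReal_le_one
  rw [← summable_condensed_iff_of_nonneg (fun j => Finset.prod_nonneg fun i _ => (p i j).le) fun _ _ _ h =>
    Finset.prod_le_prod (fun i _ => (p i _).le) fun i _ => a i h, ← summable_nat_add_iff 1]
  refine (((s1.mul_left (4 * (m + 1) : ℝ)).add (summable_geometric_two.mul_left (n : ℝ))).mul_left
    (2 * ∏ i, max (ψ i 0) 1)).of_norm_bounded_eventually_nat ?_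
  filter_upwards [hω m, eventually_ge_atTop K] with k h1 h2
  have h1 := h1 τ (fun l i => by
    have := (div_le_iff₀ (by positivity)).1 ((f l i).trans (min_le_right _ _))
    exact_mod_cast this.trans_eq (one_mul _)) (u _)
  have h3 := lip .univ (e := 1 / 4 ^ k) fun i => ⟨by positivity, f k i, min_le_right _ _, by
    rw [← add_div, le_div_iff₀ (by positivity)]
    simpa only [τ, if_neg h2.not_gt] using (Nat.lt_floor_add_one _).le⟩
  have h4 : ∏ i, ψ i (2 ^ (k + 1)) ≤ (∏ i, max (ψ i 0) 1) * ∏ i, t (2 ^ (k + 1)) i := by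
    rw [← Finset.prod_mul_distrib]
    refine Finset.prod_le_prod (fun i _ => (p i _).le) fun i _ => ?_
    simp only [t]
    rcases le_total (ψ i (2 ^ (k + 1))) 1 with c | c
    · rw [min_eq_left c]
      exact le_mul_of_one_le_left (p _ _).le (le_max_right _ _)
    rw [min_eq_right c, mul_one]
    exact le_max_of_le_left (a i (Nat.zero_le _))
  rw [norm_of_nonneg (mul_nonneg (by positivity) (Finset.prod_nonneg fun i _ => (p i _).le)), pow_succ]
  refine (mul_le_mul_of_nonneg_left h4 (by positivity)).trans ?_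
  rw [mul_comm _ 2, mul_mul_mul_comm]
  refine mul_le_mul_of_nonneg_left ?_ (mul_nonneg two_pos.le (Finset.prod_nonneg fun i _ => by positivity))
  refine (mul_le_mul_of_nonneg_left h3 (by positivity)).trans ?_
  rw [mul_add, Finset.card_fin]
  refine add_le_add ?_ (le_of_eq ?_)
  · rwa [mul_one_div, div_div, div_le_iff₀' (by positivity), mul_comm _ 4] at h1
  rw [show (4 : ℝ) ^ k = 2 ^ k * 2 ^ k by rw [← mul_pow]; norm_num, one_div_pow]
  field_simp

end Pool.Agent.H.MP_bc03d6_nt
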